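import Pool.Agent.W313.HB.Stm3
import Pool.Agent.W554.HB.Type

/-!
# HB-TYPEW: local points come from residue classes with a bounded modulus, weak approximation
-/

set_option autoImplicit false

namespace Pool.Agent.W863.HB

open Finset Pool.Agent.W313.BMX Pool.Agent.W313.HB Pool.Agent.W554.HB

theorem typew_ : S_TYPEW := by
  intro n d1 d2 G1 G2 hG1 hG2 p hp Ω hΩ
  have hp2 := p_two (p := p)
  have hp0 : (0 : ℝ) < p := by linarith
  have : NeZero (p ^ 4) := ⟨pow_ne_zero 4 hp.out.ne_zero⟩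
  have key : ∀ ij : ZMod (p ^ 4) × ZMod (p ^ 4), ∃ k : ℕ, ∀ k', k ≤ k' → ∃ K : ℕ, ∀ K', K ≤ K' →
      ∀ a b : ℤ,
      Squarefree a → Squarefree b → (a : ZMod (p ^ 4)) = ij.1 → (b : ZMod (p ^ 4)) = ij.2 →
      HasPW G1 G2 a b Ω → ∃ x0 : Fin (n + 1) → ℕ,
      (∀ i, x0 i < p ^ K') ∧ ∀ x : Fin (n + 1) → ℤ, (∀ i, ((p ^ K' : ℕ) : ℤ) ∣ x i - x0 i) →
        MvPolynomial.eval x G1 ≠ 0 ∧ MvPolynomial.eval x G2 ≠ 0 ∧
        Splits ((((a * MvPolynomial.eval x G1 : ℤ))) : ℚ_[p])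
          ((((b * MvPolynomial.eval x G2 : ℤ))) : ℚ_[p]) ∧
        ∀ μ : ℚ_[p], ‖μ * (p : ℚ_[p]) ^ k' - 1‖ ≤ (p : ℝ) ^ (-(K' : ℤ)) →
          (fun i => μ * (x i : ℚ_[p])) ∈ Ω := by
    rintro ⟨i, j⟩
    by_cases hP : ∃ a1 b1 : ℤ, Squarefree a1 ∧ Squarefree b1 ∧ (a1 : ZMod (p ^ 4)) = i ∧
        (b1 : ZMod (p ^ 4)) = j ∧ HasPW G1 G2 a1 b1 Ω
    · obtain ⟨a1, b1, ha1, hb1, hai, hbj, x1, hx1O, hx1, hx2, hx3⟩ := hP
      -- integrality
      obtain ⟨k0, hk0⟩ : ∃ k0 : ℕ, ∀ i, ‖x1 i‖ ≤ (p : ℝ) ^ k0 := by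
        obtain ⟨i, hi⟩ := Finite.exists_max (fun i => ‖x1 i‖)
        obtain ⟨k0, hk0⟩ := pow_unbounded_of_one_lt ‖x1 i‖ (show (1 : ℝ) < p by linarith)
        exact ⟨k0, fun j => (hi j).trans hk0.le⟩
      refine ⟨k0, fun k' hk' => ?_⟩
      have hpn : ‖(p : ℚ_[p]) ^ k'‖ = ((p : ℝ) ^ k')⁻¹ := by
        rw [norm_pow, Padic.norm_p, inv_pow]
      have hpk : (0 : ℝ) < (p : ℝ) ^ k' := by positivity
      have hx1k : ∀ i, ‖x1 i‖ ≤ (p : ℝ) ^ k' := fun i =>
        (hk0 i).trans (pow_le_pow_right₀ (by linarith) hk')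
      set c : ℚ_[p] := (p : ℚ_[p]) ^ k' with hcdef
      have hc : c ≠ 0 := by
        rw [hcdef]
        exact pow_ne_zero _ (by exact_mod_cast hp.out.ne_zero)
      let y : Fin (n + 1) → ℤ_[p] := fun i => ⟨c * x1 i, by
        rw [norm_mul, hpn, inv_mul_le_iff₀ hpk, mul_one]
        exact hx1k i⟩
      have hy : ∀ i, (y i : ℚ_[p]) = c * x1 i := fun i => rfl
      have e : (fun i => (y i : ℚ_[p])) = fun i => c * x1 i := funext hy
      have g1 : MvPolynomial.aeval (fun i => (y i : ℚ_[p])) G1 =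
          MvPolynomial.aeval x1 G1 * (c ^ d1) ^ 2 := by
        rw [e, aeval_smul' hG1]; ring
      have g2 : MvPolynomial.aeval (fun i => (y i : ℚ_[p])) G2 =
          MvPolynomial.aeval x1 G2 * (c ^ d2) ^ 2 := by
        rw [e, aeval_smul' hG2]; ring
      have n1 : MvPolynomial.aeval (fun i => (y i : ℚ_[p])) G1 ≠ 0 := by
        rw [g1]; exact mul_ne_zero hx1 (pow_ne_zero _ (pow_ne_zero _ hc))
      have n2 : MvPolynomial.aeval (fun i => (y i : ℚ_[p])) G2 ≠ 0 := by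
        rw [g2]; exact mul_ne_zero hx2 (pow_ne_zero _ (pow_ne_zero _ hc))
      obtain ⟨K1, hK1⟩ := cont G1 y n1
      obtain ⟨K2, hK2⟩ := cont G2 y n2
      obtain ⟨δ, hδ, hδ2⟩ := Metric.isOpen_iff.1 hΩ x1 hx1O
      obtain ⟨K3, hK3⟩ := exists_pow_lt_of_lt_one (show (0 : ℝ) < δ / (p : ℝ) ^ k' by positivity)
        (y := (p : ℝ)⁻¹) (by
          rw [inv_lt_one₀ (by linarith)]; linarith)
      refine ⟨max (max K1 K2) K3, fun K' hK' a b ha hb hai' hbj' _ => ?_⟩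
      have l1 : K1 ≤ K' := ((le_max_left _ _).trans (le_max_left _ _)).trans hK'
      have l2 : K2 ≤ K' := ((le_max_right _ _).trans (le_max_left _ _)).trans hK'
      have l3 : K3 ≤ K' := (le_max_right _ _).trans hK'
      refine ⟨fun i => (y i).appr K', fun i => PadicInt.appr_lt _ _, fun x hx => ?_⟩
      have hxy : ∀ i, ‖((x i : ℤ) : ℤ_[p]) - y i‖ ≤ (p : ℝ) ^ (-(K' : ℤ)) := by
        intro i
        rw [PadicInt.norm_le_pow_iff_mem_span_pow]
        have s1 := PadicInt.appr_spec K' (y i)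
        have s2 : ((x i : ℤ) : ℤ_[p]) - ((y i).appr K' : ℤ_[p]) ∈
            Ideal.span {(p : ℤ_[p]) ^ K'} := by
          rw [Ideal.mem_span_singleton]
          obtain ⟨k, hk⟩ := hx i
          refine ⟨(k : ℤ_[p]), ?_⟩
          have := congrArg (fun z : ℤ => (z : ℤ_[p])) hk
          push_cast at this
          exact this
        have s3 : ((x i : ℤ) : ℤ_[p]) - y i = (((x i : ℤ) : ℤ_[p]) - ((y i).appr K' : ℤ_[p])) -
            (y i - ((y i).appr K' : ℤ_[p])) := by ring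
        rw [s3]
        exact Ideal.sub_mem _ s2 s1
      obtain ⟨c1, hc1, k1⟩ := hK1 K' l1 (fun i => ((x i : ℤ) : ℤ_[p])) hxy
      obtain ⟨c2, hc2, k2⟩ := hK2 K' l2 (fun i => ((x i : ℤ) : ℤ_[p])) hxy
      have q1 : ((MvPolynomial.eval x G1 : ℤ) : ℚ_[p]) =
          MvPolynomial.aeval (fun i => (y i : ℚ_[p])) G1 * c1 ^ 2 := by
        rw [eval_cast, ← k1]
        simp only [PadicInt.coe_intCast]
      have q2 : ((MvPolynomial.eval x G2 : ℤ) : ℚ_[p]) =
          MvPolynomial.aeval (fun i => (y i : ℚ_[p])) G2 * c2 ^ 2 := by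
        rw [eval_cast, ← k2]
        simp only [PadicInt.coe_intCast]
      obtain ⟨e1, he1, f1⟩ := near_sqf (p := p) ha1 (hai'.trans hai.symm)
      obtain ⟨e2, he2, f2⟩ := near_sqf (p := p) hb1 (hbj'.trans hbj.symm)
      refine ⟨?_, ?_, ?_, ?_⟩
      · intro h0
        rw [h0, Int.cast_zero] at q1
        exact (mul_ne_zero n1 (pow_ne_zero _ hc1)) q1.symm
      · intro h0
        rw [h0, Int.cast_zero] at q2
        exact (mul_ne_zero n2 (pow_ne_zero _ hc2)) q2.symm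
      · rw [Int.cast_mul, Int.cast_mul, q1, q2, f1, f2, g1, g2]
        have r1 : (a1 : ℚ_[p]) * e1 ^ 2 * (MvPolynomial.aeval x1 G1 * (c ^ d1) ^ 2 * c1 ^ 2) =
            ((a1 : ℚ_[p]) * MvPolynomial.aeval x1 G1) * (e1 * c ^ d1 * c1) ^ 2 := by ring
        have r2 : (b1 : ℚ_[p]) * e2 ^ 2 * (MvPolynomial.aeval x1 G2 * (c ^ d2) ^ 2 * c2 ^ 2) =
            ((b1 : ℚ_[p]) * MvPolynomial.aeval x1 G2) * (e2 * c ^ d2 * c2) ^ 2 := by ring
        rw [r1, r2, splits_mul_sq (mul_ne_zero (mul_ne_zero he1 (pow_ne_zero _ hc)) hc1),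
          splits_comm, splits_mul_sq (mul_ne_zero (mul_ne_zero he2 (pow_ne_zero _ hc)) hc2),
          splits_comm]
        exact hx3
      · intro μ hμ
        apply hδ2
        rw [Metric.mem_ball, dist_pi_lt_iff hδ]
        intro i
        rw [dist_eq_norm]
        have hKle : (p : ℝ) ^ (-(K' : ℤ)) < δ / (p : ℝ) ^ k' := by
          refine lt_of_le_of_lt ?_ hK3
          rw [zpow_neg, zpow_natCast, inv_pow]
          apply inv_anti₀ (by positivity)
          exact pow_le_pow_right₀ (by linarith) l3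
        have hKpos : (0 : ℝ) < (p : ℝ) ^ (-(K' : ℤ)) := by positivity
        have hK1' : (p : ℝ) ^ (-(K' : ℤ)) ≤ 1 := by
          rw [zpow_neg, zpow_natCast]
          exact inv_le_one_of_one_le₀ (one_le_pow₀ (by linarith))
        have hμc : ‖μ * c‖ ≤ 1 := by
          have h2 := Padic.nonarchimedean (μ * c - 1) 1
          rw [sub_add_cancel, norm_one] at h2
          exact h2.trans (max_le (hμ.trans hK1') le_rfl)
        have hμn : ‖μ‖ ≤ (p : ℝ) ^ k' := by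
          rw [norm_mul, hpn, mul_inv_le_iff₀ hpk, one_mul] at hμc
          exact hμc
        have hxi : ‖(x i : ℚ_[p]) - c * x1 i‖ ≤ (p : ℝ) ^ (-(K' : ℤ)) := by
          have h3 := hxy i
          rw [PadicInt.norm_def] at h3
          push_cast at h3
          rw [hy] at h3
          exact h3
        have s4 : μ * (x i : ℚ_[p]) - x1 i = μ * ((x i : ℚ_[p]) - c * x1 i) +
            (μ * c - 1) * x1 i := by ring
        rw [s4]
        have hb1' : ‖μ * ((x i : ℚ_[p]) - c * x1 i)‖ ≤ (p : ℝ) ^ k' * (p : ℝ) ^ (-(K' : ℤ)) := by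
          rw [norm_mul]
          exact mul_le_mul hμn hxi (norm_nonneg _) hpk.le
        have hb2' : ‖(μ * c - 1) * x1 i‖ ≤ (p : ℝ) ^ k' * (p : ℝ) ^ (-(K' : ℤ)) := by
          rw [norm_mul, mul_comm]
          exact mul_le_mul (hx1k i) hμ (norm_nonneg _) hpk.le
        refine ((Padic.nonarchimedean _ _).trans (max_le hb1' hb2')).trans_lt ?_
        rw [lt_div_iff₀ hpk] at hKle
        rw [mul_comm]
        exact hKle
    · refine ⟨0, fun k' _ => ⟨0, fun K' _ a b ha hb hai hbj hH => ?_⟩⟩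
      exact absurd ⟨a, b, ha, hb, hai, hbj, hH⟩ hP
  choose k hk using key
  have key2 : ∀ ij : ZMod (p ^ 4) × ZMod (p ^ 4), k ij ≤ univ.sup k := fun ij =>
    Finset.le_sup (f := k) (mem_univ ij)
  choose K hK using fun ij => hk ij (univ.sup k) (key2 ij)
  refine ⟨univ.sup K, univ.sup k, fun a b ha hb hH => ?_⟩
  exact hK (a, b) _ (Finset.le_sup (f := K) (mem_univ _)) a b ha hb rfl rfl hH

end Pool.Agent.W863.HB
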